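import Pool.Agent.MWFE.StmtsA

/-!
Squad MWFE, row TRH (MP_23468a_al): insertion at the ends of the blocks, both words with a tail
(after the row TRG of squad MWE, helper11).
-/

set_option autoImplicit false

namespace Pool.Agent.MWFE.H8

open Pool.Agent.Helper14_MV Pool.Agent.Helper2_MV Pool.Agent.MVD Pool.Agent.MWFE

/-- the word for the head of the list -/
def hd (Lf : ℕ → List ℕ) : List ℕ → List ℕ
  | [] => []
  | a :: _ => Lf a

/-- the word for the next element -/
def nx (Lf : ℕ → List ℕ) : List ℕ → ℕ → List ℕ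
  | [], _ => []
  | a :: S, r => if r = a then hd Lf S else nx Lf S r

theorem flat_sfr {g : ℕ → List ℕ} (hg : ∀ c, c % 3 ≠ 2 → g c = [c]) : ∀ l : List ℕ, SFr l →
    l.flatMap g = l := by
  intro l hl
  induction l with
  | nil => rfl
  | cons a l ih =>
    rw [List.flatMap_cons, hg a (hl a List.mem_cons_self),
      ih (fun c hc => hl c (List.mem_cons_of_mem _ hc))]
    rfl

theorem flat_bw {Lf Rt B : ℕ → List ℕ} {g : ℕ → List ℕ} (hg : ∀ c, c % 3 ≠ 2 → g c = [c]) :
    ∀ S : List ℕ, S.Nodup → (∀ r ∈ S, SFr (B r)) →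
      (∀ r ∈ S, g (3 * r + 2) = Rt r ++ (3 * r + 2) :: nx Lf S r) →
        hd Lf S ++ (Bw S B).flatMap g = Bw S (fun r => Lf r ++ (B r ++ Rt r)) := by
  intro S
  induction S with
  | nil => intro _ _ _; rfl
  | cons a S ih =>
    intro hn hs hgS
    rw [List.nodup_cons] at hn
    have h1 := ih hn.2 (fun r hr => hs r (List.mem_cons_of_mem _ hr)) (fun r hr => by
      rw [hgS r (List.mem_cons_of_mem _ hr)]
      have hne : r ≠ a := fun h => hn.1 (h ▸ hr)
      simp [nx, hne])
    have h2 : g (3 * a + 2) = Rt a ++ (3 * a + 2) :: hd Lf S := by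
      rw [hgS a List.mem_cons_self]
      simp [nx]
    have e1 : ∀ X : ℕ → List ℕ, Bw (a :: S) X = X a ++ ([3 * a + 2] ++ Bw S X) := by
      intro X
      simp [Bw]
    rw [e1, e1, List.flatMap_append, List.flatMap_append, flat_sfr hg _ (hs a List.mem_cons_self),
      List.flatMap_cons, List.flatMap_nil, List.append_nil, h2, ← h1]
    simp [hd]

theorem trh : TrhStmt := by
  intro β R B B' Lf Rt e e' hR hB hB' he he' h
  let g : ℕ → List ℕ := fun c => if c % 3 = 2 then Rt (c / 3) ++ c :: nx Lf R (c / 3) else [c]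
  have hg : ∀ c, c % 3 ≠ 2 → g c = [c] := by
    intro c hc
    show (if c % 3 = 2 then _ else [c]) = [c]
    rw [if_neg hc]
  have hgS : ∀ r ∈ R, g (3 * r + 2) = Rt r ++ (3 * r + 2) :: nx Lf R r := by
    intro r _
    have e1 : (3 * r + 2) % 3 = 2 := by omega
    have e2 : (3 * r + 2) / 3 = r := by omega
    show (if (3 * r + 2) % 3 = 2 then Rt ((3 * r + 2) / 3) ++ (3 * r + 2) ::
      nx Lf R ((3 * r + 2) / 3) else [3 * r + 2]) = _
    rw [if_pos e1, e2]
  have h1 := h.sub g
  have h2 := RR.append (RR.refl (hd Lf R)) h1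
  rw [List.flatMap_append, List.flatMap_append, flat_sfr hg e he, flat_sfr hg e' he',
    ← List.append_assoc, ← List.append_assoc, flat_bw hg R hR hB hgS,
    flat_bw hg R hR hB' hgS] at h2
  exact h2

end Pool.Agent.MWFE.H8
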